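import Pool.Agent.helper75.LC.Spec

/-! Row lc:BMO (MP_8aef6e_al): monotonicity of BIG, and BIG for one pair. -/

set_option autoImplicit false

namespace Pool.Agent.LC

open MX MG

open scoped MatrixGroups

theorem BMO : BMO_stmt := by
  refine ⟨?_, ?_⟩
  · intro H V _ _ _ p m n hmn
    rintro ⟨f, h1, h2, h3⟩
    refine ⟨fun i => f (Fin.castLE hmn i), fun i => h1 _, fun i => h2 _, fun i j hij => ?_⟩
    exact Fin.castLE_injective hmn (h3 _ _ hij)
  · intro H V _ _ _ p hV
    obtain ⟨v, hv⟩ := exists_ne (0 : V)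
    refine ⟨fun _ => (v, 1), fun i => ?_, fun i => ⟨0, by simp⟩, fun i j _ => Subsingleton.elim i j⟩
    intro hmem
    apply hv
    change v ∈ cmm H V 1 at hmem
    obtain ⟨u, hu⟩ := hmem
    rw [hu]
    simp

end Pool.Agent.LC
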